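import Pool.Agent.Y951.SQ.StmWA

/-!
# Weak approximation for the real places
-/

set_option autoImplicit false

namespace Pool.Agent.Y390.SQ

open Pool.Agent.Y691.ST Pool.Agent.Y951.SQ

lemma inv_apply_apply (g : GalQ) (x : Qbar) : g⁻¹ (g x) = x := by
  have h : (g⁻¹ * g) x = x := by
    rw [inv_mul_cancel]
    rfl
  exact h

lemma apply_inv_apply (g : GalQ) (x : Qbar) : g (g⁻¹ x) = x := by
  have h : (g * g⁻¹) x = x := by
    rw [mul_inv_cancel]
    rfl
  exact h

lemma conj_fix (c g : GalQ) (x : Qbar) : (g * c * g⁻¹) x = x ↔ c (g⁻¹ x) = g⁻¹ x := by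
  have h0 : (g * c * g⁻¹) x = g (c (g⁻¹ x)) := rfl
  rw [h0]
  constructor
  · intro h
    rw [← inv_apply_apply g (c (g⁻¹ x)), h]
  · intro h
    rw [h, apply_inv_apply]

lemma aeval_gal (g : GalQ) (x : Qbar) (p : Polynomial ℚ) :
    Polynomial.aeval (g x) p = g (Polynomial.aeval x p) :=
  Polynomial.aeval_algHom_apply g x p

lemma aeval_emb (φ : Qbar →+* ℂ) (x : Qbar) (p : Polynomial ℚ) :
    Polynomial.aeval (φ x) p = φ (Polynomial.aeval x p) :=
  Polynomial.aeval_algHom_apply φ.toRatAlgHom x p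

lemma im_of_sq {z : ℂ} {x : ℝ} (hx : 0 < x) (h : z * z = (x : ℂ)) : z.im = 0 := by
  have h3 := congrArg Complex.re h
  have h4 := congrArg Complex.im h
  rw [Complex.mul_re, Complex.ofReal_re] at h3
  rw [Complex.mul_im, Complex.ofReal_im] at h4
  by_contra h5
  have h6 : z.re = 0 := by
    have h7 : z.re * z.im = 0 := by linarith
    exact (mul_eq_zero.mp h7).resolve_right h5
  rw [h6] at h3
  have h8 : 0 < z.im * z.im := mul_self_pos.mpr h5
  linarith

lemma im_ne_of_sq {z : ℂ} {x : ℝ} (hx : x < 0) (h : z * z = (x : ℂ)) : z.im ≠ 0 := by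
  intro h5
  have h3 := congrArg Complex.re h
  rw [Complex.mul_re, Complex.ofReal_re, h5] at h3
  nlinarith [mul_self_nonneg z.re]

theorem t_WAF (hA : S_ALPHA) (hP : S_POLY) : S_WA := by
  classical
  intro c φ hφ W hW T hT
  by_cases hR : ∃ g : GalQ, g * c * g⁻¹ ∈ W
  swap
  · push Not at hR
    refine ⟨1, fun w => by simp, ?_, fun g h => absurd h (hR g)⟩
    have h2 : {w : W | (1 : W →* ℂˣ) w = 1} = Set.univ := by
      ext u
      simp
    rw [h2]
    exact isOpen_univ
  obtain ⟨α, hα⟩ := hA W hW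
  let r : GalQ → ℝ := fun g => (φ (g⁻¹ α)).re
  have hreal : ∀ g : GalQ, g * c * g⁻¹ ∈ W → φ (g⁻¹ α) = ((r g : ℝ) : ℂ) := by
    intro g hg
    have h1 := fixed_im hφ ((conj_fix c g α).1 ((hα _).1 hg))
    apply Complex.ext
    · rfl
    · rw [h1, Complex.ofReal_im]
  let F : Finset ℝ := ((minpoly ℚ α).aroots ℂ).toFinset.image Complex.re
  have hF : ∀ g : GalQ, r g ∈ F := by
    intro g
    refine Finset.mem_image.2 ⟨φ (g⁻¹ α), ?_, rfl⟩
    rw [Multiset.mem_toFinset, Polynomial.mem_aroots]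
    refine ⟨minpoly.ne_zero (Algebra.IsIntegral.isIntegral α), ?_⟩
    rw [aeval_emb, aeval_gal, minpoly.aeval, map_zero, map_zero]
  obtain ⟨p, hp⟩ := hP F (r '' {g | g ∈ T ∧ g * c * g⁻¹ ∈ W})
  have hpos : ∀ g : GalQ, g * c * g⁻¹ ∈ W → g ∉ T → 0 < Polynomial.aeval (r g) p := by
    intro g hg hgT
    refine (hp _ (hF g)).2 ?_
    rintro ⟨g', ⟨hg'T, hg'⟩, hrg⟩
    apply hgT
    have h1 : φ (g'⁻¹ α) = φ (g⁻¹ α) := by rw [hreal g' hg', hreal g hg, hrg]
    have h2 : g'⁻¹ α = g⁻¹ α := φ.injective h1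
    have h3 : (g * g'⁻¹) α = α := by
      show g (g'⁻¹ α) = α
      rw [h2, apply_inv_apply]
    have h4 := hT _ ((hα _).2 h3) g' hg'T
    rwa [inv_mul_cancel_right] at h4
  have hneg : ∀ g : GalQ, g * c * g⁻¹ ∈ W → g ∈ T → Polynomial.aeval (r g) p < 0 :=
    fun g hg hgT => (hp _ (hF g)).1 ⟨g, ⟨hgT, hg⟩, rfl⟩
  have hval : ∀ g : GalQ, g * c * g⁻¹ ∈ W →
      φ (g⁻¹ (Polynomial.aeval α p)) = ((Polynomial.aeval (r g) p : ℝ) : ℂ) := by
    intro g hg
    rw [← aeval_gal, ← aeval_emb, hreal g hg]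
    exact Polynomial.aeval_algebraMap_apply ℂ (r g) p
  obtain ⟨s, hs⟩ := IsAlgClosed.exists_pow_nat_eq (Polynomial.aeval α p) (n := 2) two_pos
  rw [pow_two] at hs
  have hs0 : s ≠ 0 := by
    rintro rfl
    obtain ⟨g, hg⟩ := hR
    have h1 := hval g hg
    rw [← hs, mul_zero, map_zero, map_zero] at h1
    have h2 : Polynomial.aeval (r g) p = 0 := by exact_mod_cast h1.symm
    by_cases hgT : g ∈ T
    · exact absurd h2 (hneg g hg hgT).ne
    · exact absurd h2 (hpos g hg hgT).ne'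
  have hne : -s ≠ s := by
    intro h
    have h2 : (2 : Qbar) * s = 0 := by linear_combination -h
    exact hs0 ((mul_eq_zero.mp h2).resolve_left two_ne_zero)
  have hpm : ∀ w : W, (w : GalQ) s = s ∨ (w : GalQ) s = -s := by
    intro w
    have h1 : (w : GalQ) s * (w : GalQ) s = s * s := by
      rw [← map_mul, hs, ← aeval_gal, (hα _).1 w.2]
    have h2 : ((w : GalQ) s - s) * ((w : GalQ) s + s) = 0 := by
      linear_combination h1
    rcases mul_eq_zero.mp h2 with h5 | h5
    · exact Or.inl (sub_eq_zero.mp h5)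
    · exact Or.inr (eq_neg_of_add_eq_zero_left h5)
  have hmul : ∀ g h : W, (if ((g * h : W) : GalQ) s = s then (1 : ℂˣ) else -1) =
      (if (g : GalQ) s = s then (1 : ℂˣ) else -1) * (if (h : GalQ) s = s then (1 : ℂˣ) else -1) := by
    intro g h
    have h0 : ((g * h : W) : GalQ) s = (g : GalQ) ((h : GalQ) s) := rfl
    rw [h0]
    rcases hpm h with hh | hh
    · rw [hh, if_pos rfl, mul_one]
    · rw [hh, map_neg, if_neg hne]
      rcases hpm g with hg | hg
      · rw [hg, if_neg hne, if_pos rfl, one_mul]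
      · rw [hg, neg_neg, if_pos rfl, if_neg hne]
        simp
  let l : W →* ℂˣ := MonoidHom.mk' (fun g => if (g : GalQ) s = s then (1 : ℂˣ) else -1) hmul
  have hl : ∀ g : W, l g = if (g : GalQ) s = s then (1 : ℂˣ) else -1 := fun g => rfl
  refine ⟨l, ?_, ?_, ?_⟩
  · intro g
    rw [hl]
    split_ifs <;> simp
  · have hint : IsIntegral ℚ s := Algebra.IsIntegral.isIntegral s
    have := IntermediateField.adjoin.finiteDimensional hint
    have ho := IntermediateField.fixingSubgroup_isOpen (IntermediateField.adjoin ℚ {s})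
    have ho2 : IsOpen ((((IntermediateField.adjoin ℚ {s}).fixingSubgroup).subgroupOf W :
        Subgroup W) : Set W) := ho.preimage continuous_subtype_val
    refine Subgroup.isOpen_mono (H₂ := l.ker) ?_ ho2
    intro g hg
    rw [MonoidHom.mem_ker, hl, if_pos]
    rw [Subgroup.mem_subgroupOf, IntermediateField.mem_fixingSubgroup_iff] at hg
    exact hg s (IntermediateField.mem_adjoin_simple_self ℚ s)
  · intro g h
    have h1 : φ (g⁻¹ s) * φ (g⁻¹ s) = ((Polynomial.aeval (r g) p : ℝ) : ℂ) := by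
      rw [← map_mul, ← map_mul, hs, hval g h]
    have h2 : l ⟨g * c * g⁻¹, h⟩ = if (g * c * g⁻¹) s = s then (1 : ℂˣ) else -1 := rfl
    rw [h2]
    constructor
    · intro h3
      by_contra hgT
      have h4 := im_of_sq (hpos g h hgT) h1
      have h5 := (conj_fix c g s).2 (fixed_of_im hφ h4)
      rw [if_pos h5] at h3
      have h6 : (1 : ℂ) = -1 := by
        have := congrArg Units.val h3
        simpa using this
      norm_num at h6
    · intro hgT
      rw [if_neg]
      intro h5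
      exact im_ne_of_sq (hneg g h hgT) h1 (fixed_im hφ ((conj_fix c g s).1 h5))

end Pool.Agent.Y390.SQ
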